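import Pool.Agent.Y223.G.Stm5
import Pool.Agent.Y223.G.WBase

/-!
# The graded algebra of a chart is regular outside the vertex
-/

set_option autoImplicit false
set_option linter.unusedSectionVars false

namespace Pool.Agent.Y290.G

open IsLocalRing Pool.Agent.W418.LU2 Pool.Agent.Y223.G

/-- The local rings of a ring at the primes which survive in a regular localization are
regular. -/
theorem atPrime_of_isLocalization {A B : Type} [CommRing A] [CommRing B] [Algebra A B]
    (M : Submonoid A) [IsLocalization M B] [IsRegularRing B] (Q : Ideal A) [hQ : Q.IsPrime]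
    (hd : Disjoint (M : Set A) (Q : Set A)) : IsRegularLocalRing (Localization.AtPrime Q) := by
  let P : Ideal B := Q.map (algebraMap A B)
  have hP : P.IsPrime := IsLocalization.isPrime_of_isPrime_disjoint M B Q hQ hd
  have hPQ : P.comap (algebraMap A B) = Q := IsLocalization.comap_map_of_isPrime_disjoint M B hQ hd
  have h1 : IsRegularLocalRing (Localization.AtPrime P) := inferInstance
  have h2 : IsLocalization.AtPrime (Localization.AtPrime P) (P.comap (algebraMap A B)) :=
    IsLocalization.isLocalization_isLocalization_atPrime_isLocalization M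
      (Localization.AtPrime P) P
  have e : (P.comap (algebraMap A B)).primeCompl = Q.primeCompl := by
    ext a
    change a ∉ P.comap (algebraMap A B) ↔ a ∉ Q
    rw [hPQ]
  have h3 : IsLocalization Q.primeCompl (Localization.AtPrime P) := by
    rw [← e]
    exact h2
  exact IsRegularLocalRing.of_ringEquiv
    (IsLocalization.algEquiv Q.primeCompl (Localization.AtPrime P)
      (Localization.AtPrime Q)).toRingEquiv

section gen

variable {k K : Type} [CommRing k] [Field K] [Algebra k K]

theorem regular_atPrime {R : Subalgebra k (LP K)} {x : LP K} (hx : x ∈ R) (hu : IsUnit x)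
    (hreg : IsRegularRing (loc R x hx)) (Q : Ideal R) [hQ : Q.IsPrime]
    (hxQ : (⟨x, hx⟩ : R) ∉ Q) : IsRegularLocalRing (Localization.AtPrime Q) := by
  let _ := locAlg R hx
  have h1 : IsLocalization.Away (⟨x, hx⟩ : R) (loc R x hx) := isLocalization_loc R hx hu
  refine atPrime_of_isLocalization (B := loc R x hx) (Submonoid.powers (⟨x, hx⟩ : R)) Q ?_
  rw [Set.disjoint_left]
  rintro _ ⟨n, rfl⟩ h
  exact hxQ (hQ.mem_of_pow_mem n h)

/-- comparison with a regular subalgebra -/
theorem regular_cmp {R R' : Subalgebra k (LP K)} (hle : R ≤ R') (hR' : IsRegularRing R')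
    {x : LP K} (hx : x ∈ R) (hu : IsUnit x) (h : ∀ f ∈ R', ∃ n : ℕ, x ^ n * f ∈ R)
    (Q : Ideal R) [hQ : Q.IsPrime] (hxQ : (⟨x, hx⟩ : R) ∉ Q) :
    IsRegularLocalRing (Localization.AtPrime Q) := by
  have e : loc R' x (hle hx) = loc R x hx := by
    ext f
    rw [mem_loc, mem_loc]
    constructor
    · rintro ⟨n, hn⟩
      obtain ⟨m, hm⟩ := h _ hn
      refine ⟨m + n, ?_⟩
      rwa [pow_add, mul_assoc]
    · rintro ⟨n, hn⟩
      exact ⟨n, hle hn⟩
  have h1 : IsRegularRing (loc R' x (hle hx)) := regular_loc hR' (hle hx) hu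
  rw [e] at h1
  exact regular_atPrime hx hu h1 Q hxQ

end gen

section rg

variable {k O K G : Type} [CommRing k] [CommRing O] [Field K] [Group G] [Algebra O K]
  [Algebra k K] {ρ : G →* (K ≃ₐ[k] K)} {N : Type} {𝔔 : N → Ideal O} {p l : N → ℕ} {τ : N → G}
  {C : Subalgebra O K}

theorem mem_RG {f : LP K} : f ∈ RG k ρ 𝔔 p l τ C ↔ f ∈ RR k 1 1 ⊤ 0 C ∧
    ∀ i, f ∈ RR k (ρ (τ i)) (p i) (𝔔 i) (l i) C := by
  unfold RG
  rw [Algebra.mem_inf, Algebra.mem_iInf]

theorem RG_le (i : N) : RG k ρ 𝔔 p l τ C ≤ RR k (ρ (τ i)) (p i) (𝔔 i) (l i) C := fun _ hf =>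
  (mem_RG.1 hf).2 i

end rg

/-- **The graded algebra of a chart is regular outside the vertex.** -/
theorem t_RGCH : S_WCH → S_RGLU → S_RGFT → S_RGCH := by
  intro hWCH hLU hFT
  intro k O K G _ _ _ _ _ _ _ _ _ _ _ ρ T N _ 𝔔 p l τ hL C hC hftC hregC hregi
  classical
  have _ := Fintype.ofFinite N
  have hft : Algebra.FiniteType k (RG k ρ 𝔔 p l τ C) := hFT k O K G ρ T N 𝔔 p l τ hL C hC hftC
  have hns : IsNoetherianRing (RG k ρ 𝔔 p l τ C) := Algebra.FiniteType.isNoetherianRing k _
  have hp : ∀ i, 0 < p i := by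
    intro i
    rcases hL.ty i with h | h
    · rw [h.1]
      exact one_pos
    · exact h.1.pp.pos
  have hC1 : ∀ c ∈ C, (1 : K ≃ₐ[k] K) c ∈ C := fun c hc => hc
  have hgr : Gr (RG k ρ 𝔔 p l τ C) := by
    intro f hf d
    rw [mem_RG] at hf ⊢
    exact ⟨RR_gr f hf.1 d, fun i => RR_gr f (hf.2 i) d⟩
  have hss : (hm (-1) 1 : LP K) ∈ RG k ρ 𝔔 p l τ C := mem_RG.2 ⟨RR_s, fun i => RR_s⟩
  have hmC : ∀ (d : ℤ) x, hm d x ∈ RG k ρ 𝔔 p l τ C → x ∈ C := fun d x h =>
    RR_mem_C hC1 (mem_RG.1 h).1
  have hCm : ∀ x ∈ C, hm 0 x ∈ RG k ρ 𝔔 p l τ C := fun x h =>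
    mem_RG.2 ⟨RR_c one_pos h, fun i => RR_c (hp i) h⟩
  have hcf : ∀ (d : ℤ) x, hm d x ∈ RG k ρ 𝔔 p l τ C → hm 0 x ∈ RG k ρ 𝔔 p l τ C := fun d x h =>
    hCm x (hmC d x h)
  have hOm : ∀ o : O, hm 0 (algebraMap O K o) ∈ RG k ρ 𝔔 p l τ C := fun o =>
    hCm _ (C.algebraMap_mem o)
  -- regularity
  have hreg : IsRegularRing (RG k ρ 𝔔 p l τ C) := by
    rcases isEmpty_or_nonempty N with hN | hN
    · refine hWCH k K (RG k ρ 𝔔 p l τ C) hns hgr hss hcf C (C.val : C →+* K)
        Subtype.val_injective ?_ hregC ?_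
      · intro y
        constructor
        · intro h
          exact ⟨⟨y, hmC 0 y h⟩, rfl⟩
        · rintro ⟨c, rfl⟩
          exact hCm _ c.2
      · intro Q hQp hQ
        exfalso
        apply hQp.ne_top
        rw [Ideal.eq_top_iff_one]
        refine hQ 1 1 one_pos ?_
        have h1 : ((C.val : C →+* K) 1 : K) = algebraMap O K 1 := by
          rw [map_one, map_one]
        rw [h1, Nat.cast_one]
        exact mem_RG.2 ⟨RR_e (Submodule.mem_top), fun i => isEmptyElim i⟩
    · rw [isRegularRing_iff]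
      intro Q hQ
      -- an element outside `Q`
      obtain ⟨i, s, hs, hsQ⟩ : ∃ (i : N) (s : O), (∀ j, j ≠ i → s ∈ 𝔔 j) ∧
          (⟨hm 0 (algebraMap O K s), hOm s⟩ : RG k ρ 𝔔 p l τ C) ∉ Q := by
        by_contra hcon
        push Not at hcon
        let φ : O →+* RG k ρ 𝔔 p l τ C :=
          { toFun := fun o => ⟨hm 0 (algebraMap O K o), hOm o⟩
            map_one' := by
              apply Subtype.ext
              change hm 0 (algebraMap O K 1) = 1
              rw [map_one, hm_one]
            map_mul' := fun a b => by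
              apply Subtype.ext
              change hm 0 (algebraMap O K (a * b)) =
                hm 0 (algebraMap O K a) * hm 0 (algebraMap O K b)
              rw [hm_mul, map_mul, add_zero]
            map_zero' := by
              apply Subtype.ext
              change hm 0 (algebraMap O K 0) = 0
              rw [map_zero, hm_zero]
            map_add' := fun a b => by
              apply Subtype.ext
              change hm 0 (algebraMap O K (a + b)) =
                hm 0 (algebraMap O K a) + hm 0 (algebraMap O K b)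
              rw [map_add, hm_add] }
        have hpw : (((Finset.univ : Finset N) : Set N)).Pairwise
            fun i j => 𝔔 i ⊔ 𝔔 j = ⊤ := by
          intro i _ j _ hij
          exact (hL.mx i).coprime_of_ne (hL.mx j) (fun h => hij (hL.dj i j h))
        have htop := (Ideal.iSup_iInf_eq_top_iff_pairwise Finset.univ_nonempty 𝔔).2 hpw
        have hle : (⨆ i ∈ (Finset.univ : Finset N), ⨅ (j) (_ : j ∈ (Finset.univ : Finset N))
            (_ : j ≠ i), 𝔔 j) ≤ Q.comap φ := by
          refine iSup_le fun i => iSup_le fun _ => ?_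
          intro s hs
          refine hcon i s fun j hj => ?_
          simp only [Ideal.mem_iInf] at hs
          exact hs j (Finset.mem_univ _) hj
        rw [htop, top_le_iff] at hle
        have h1 : (1 : O) ∈ Q.comap φ := by rw [hle]; trivial
        rw [Ideal.mem_comap, map_one] at h1
        exact hQ.ne_top ((Ideal.eq_top_iff_one _).2 h1)
      have hs0 : algebraMap O K s ≠ 0 := by
        intro h0
        apply hsQ
        have h1 : (⟨hm 0 (algebraMap O K s), hOm s⟩ : RG k ρ 𝔔 p l τ C) = 0 := by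
          apply Subtype.ext
          change hm 0 (algebraMap O K s) = 0
          rw [h0, hm_zero]
        rw [h1]
        exact Q.zero_mem
      exact regular_cmp (RG_le i) (hregi i) (hOm s) (isUnit_hm hs0)
        ((hLU k O K G ρ T N 𝔔 p l τ hL C hC).1 i s hs) Q hsQ
  refine ⟨hft, hgr, hss, hcf, ?_, ?_⟩
  · choose e he he0 using fun i => Submodule.exists_mem_ne_zero_of_ne_bot (hL.ne i)
    refine ⟨1, algebraMap O K (∏ i, e i), one_pos, ?_, ?_⟩
    · intro h
      rw [← map_zero (algebraMap O K)] at h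
      exact Finset.prod_ne_zero_iff.2 (fun i _ => he0 i) (hL.inj h)
    · rw [Nat.cast_one]
      refine mem_RG.2 ⟨RR_e Submodule.mem_top, fun i => RR_e ?_⟩
      rw [← Finset.mul_prod_erase _ _ (Finset.mem_univ i)]
      exact Ideal.mul_mem_right _ _ (he i)
  · intro n η hn _ hη
    exact regular_loc hreg hn (isUnit_hm hη)

end Pool.Agent.Y290.G
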