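import Pool.Agent.Y290.G.RamGb

/-!
# The base is covered by open subsets with ramification over at most one prime
-/

set_option autoImplicit false
set_option linter.overlappingInstances false
set_option linter.unusedSectionVars false

namespace Pool.Agent.Y290.G

open Pool.Agent.Y223.G
open Pool.Agent.Y983.G (iO iO_coe iO_alg mem_ext)

/-- **The base is covered by open subsets with ramification over at most one prime of `k`.** -/
theorem t_RAMG : S_RAM1 → S_RAMG := by
  intro hR k O K G _ _ _ _ _ _ _ _ _ _ _ _ ρ T h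
  classical
  let S : Set (Ideal O) := {P | P.IsMaximal ∧ P ≠ ⊥ ∧ ∃ g, g ≠ 1 ∧ ∀ o, T g o - o ∈ P}
  have hSfin : S.Finite := by
    have h1 : ∀ g : G, {P : Ideal O | P.IsMaximal ∧ P ≠ ⊥ ∧ g ≠ 1 ∧ ∀ o, T g o - o ∈ P}.Finite := by
      intro g
      by_cases hg : g = 1
      · refine Set.finite_empty.subset ?_
        rintro P ⟨-, -, h1, -⟩
        exact (h1 hg).elim
      · have h2 : ∃ o, T g o ≠ o := by
          by_contra hcon
          push Not at hcon
          exact hg (h.fai g hcon)
        obtain ⟨o, ho⟩ := h2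
        have hne : Ideal.span {T g o - o} ≠ (0 : Ideal O) := by
          rw [Ideal.zero_eq_bot, Ne, Ideal.span_singleton_eq_bot, sub_eq_zero]
          exact ho
        have h1 := Ideal.finite_factors hne
        refine (h1.image fun v => v.asIdeal).subset ?_
        rintro P ⟨hP, hP0, -, hPt⟩
        refine ⟨⟨P, hP.isPrime, hP0⟩, ?_, rfl⟩
        change P ∣ _
        rw [Ideal.dvd_span_singleton]
        exact hPt o
    refine (Set.finite_iUnion h1).subset ?_
    rintro P ⟨hP, hP0, g, hg, hgo⟩
    exact Set.mem_iUnion.2 ⟨g, hP, hP0, hg, hgo⟩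
  by_cases hemp : S = ∅
  · -- no ramified primes
    refine ⟨Unit, inferInstance, inferInstance, fun _ => 1, fun _ => one_ne_zero, ?_, ?_⟩
    · rw [Set.range_const, Ideal.span_singleton_one]
    · intro b
      have hd : PreD T (fun i : Empty => i.elim) (fun i => i.elim) (fun i => i.elim)
          (fun i => i.elim) :=
        ⟨fun i => i.elim, fun i => i.elim, fun i => i.elim, fun i => i.elim,
          fun _ i => i.elim⟩
      obtain ⟨hD, hL, -⟩ := locG h (s := 1) one_ne_zero hd (fun i => i.elim)
        (fun 𝔮 hq hq0 hqt => by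
          exfalso
          have h1 : 𝔮 ∈ S := ⟨hq.isMaximal hq0, hq0, hqt⟩
          rw [hemp] at h1
          exact h1)
      exact ⟨hD, _, Empty, inferInstance, _, _, _, _, hL, fun i => i.elim,
        fun b' hb' => absurd rfl hb'⟩
  · let R : Set (Ideal k) := (fun P => P.comap (algebraMap k O)) '' S
    have hfR : Finite R := (hSfin.image _).to_subtype
    have hnR : Nonempty R := ((Set.nonempty_iff_ne_empty.2 hemp).image _).to_subtype
    have := Fintype.ofFinite R
    have hfin := h.fin
    have hint : Algebra.IsIntegral k O := inferInstance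
    have hch : ∀ b : R, ∃ P ∈ S, P.comap (algebraMap k O) = b.1 := fun b => b.2
    choose P hPS hPb using hch
    let q : R → Ideal k := fun b => b.1
    have hqm : ∀ b, (q b).IsMaximal := fun b => by
      have := (hPS b).1
      change (b.1).IsMaximal
      rw [← hPb b]
      exact Ideal.isMaximal_comap_of_isIntegral_of_isMaximal (P b)
    have hqinj : ∀ b b', b ≠ b' → q b ≠ q b' := fun b b' hne e => hne (Subtype.ext e)
    have hco : ((Finset.univ : Finset R) : Set R).Pairwise fun i j => q i ⊔ q j = ⊤ :=
      fun i _ j _ hij => (hqm i).coprime_of_ne (hqm j) (hqinj i j hij)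
    have h1 := (Ideal.iSup_iInf_eq_top_iff_pairwise Finset.univ_nonempty q).2 hco
    rw [Ideal.eq_top_iff_one, Submodule.mem_iSup_finset_iff_exists_sum] at h1
    obtain ⟨μ, hμ⟩ := h1
    have hμm : ∀ b b', b' ≠ b → (μ b' : k) ∈ q b := by
      intro b b' hb
      have h2 := (μ b').2
      simp only [Submodule.mem_iInf] at h2
      exact h2 b (Finset.mem_univ b) hb.symm
    have hμn : ∀ b, (μ b : k) ∉ q b := by
      intro b hb
      refine (hqm b).ne_top ((Ideal.eq_top_iff_one _).2 ?_)
      rw [← hμ]
      refine Ideal.sum_mem _ fun b' _ => ?_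
      by_cases e : b' = b
      · rw [e]
        exact hb
      · exact hμm b b' e
    refine ⟨R, hfR, hnR, fun b => (μ b : k), fun b e => hμn b (by
      have e' : (μ b : k) = 0 := e
      rw [e']
      exact (q b).zero_mem), ?_, ?_⟩
    · rw [Ideal.eq_top_iff_one, ← hμ]
      exact Ideal.sum_mem _ fun b _ => Ideal.subset_span ⟨b, rfl⟩
    · intro b
      obtain ⟨hPm, hP0, g₁, hg₁, hg₁P⟩ := hPS b
      obtain ⟨p, l, τ, hd⟩ := dataO hR h hPm hP0 hg₁ hg₁P
      have hb0 : (μ b : k) ≠ 0 := fun e => hμn b (by
        rw [e]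
        exact (q b).zero_mem)
      have hcom : ∀ i : Orb T (P b), i.1.comap (algebraMap k O) = q b := by
        rintro ⟨Q, g, rfl⟩
        change (mv T g (P b)).comap (algebraMap k O) = b.1
        rw [mv_comap, hPb]
      obtain ⟨hD, hL, hI⟩ := locG h (s := (μ b : k)) hb0 hd
        (fun i hi => hμn b (by
          rw [← hcom i]
          exact hi))
        (fun 𝔮 hq hq0 hqt => by
          have hqm' : 𝔮.IsMaximal := hq.isMaximal hq0
          have h2 : 𝔮 ∈ S := ⟨hqm', hq0, hqt⟩
          have h3 : 𝔮.comap (algebraMap k O) ∈ R := ⟨𝔮, h2, rfl⟩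
          by_cases e : (⟨_, h3⟩ : R) = b
          · left
            have e' : 𝔮.comap (algebraMap k O) = b.1 := congrArg Subtype.val e
            obtain ⟨g, hg⟩ := trans h hPm hqm' ((hPb b).trans e'.symm)
            exact ⟨⟨𝔮, g, hg⟩, rfl⟩
          · right
            exact hμm ⟨_, h3⟩ b (Ne.symm e))
      refine ⟨hD, TB h (μ b : k), Orb T (P b), inferInstance, _, p, l, τ, hL, ?_, ?_⟩
      · intro i
        refine hI i ?_
        obtain ⟨g, hg⟩ := i.2
        refine ⟨g * g₁ * g⁻¹, ?_, ?_⟩
        · intro e
          apply hg₁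
          have e1 : g₁ = g⁻¹ * (g * g₁ * g⁻¹) * g := by group
          rw [e1, e]
          group
        · rw [hg]
          exact (conj_mv' g g₁ (P b)).2 hg₁P
      · intro b' hb' i
        have h3 : algebraMap k O (μ b' : k) ∈ i.1 := by
          have h4 : (μ b' : k) ∈ q b := hμm b b' hb'
          rw [← hcom i] at h4
          exact h4
        rw [← iO_alg]
        exact Ideal.mem_map_of_mem _ h3

end Pool.Agent.Y290.G

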