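import Pool.Agent.Y290.G.RamGa

/-!
# The base is covered by open subsets with ramification over at most one prime: the data
-/

set_option autoImplicit false
set_option linter.overlappingInstances false
set_option linter.unusedSectionVars false

namespace Pool.Agent.Y290.G

open Pool.Agent.Y223.G

section

variable {k O K G : Type} [CommRing k] [IsDomain k] [CommRing O] [IsDomain O]
  [IsDedekindDomain O] [Field K] [Group G] [Algebra k O] [Algebra O K] [Algebra k K]
  [IsScalarTower k O K] {ρ : G →* (K ≃ₐ[k] K)} {T : G →* (O ≃ₐ[k] O)}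

/-- The ramification for one element of prime order. -/
theorem ram1G [Finite G] (hR : S_RAM1) (h : GB k O K G ρ T) {p : ℕ} {τ : G} (hp : p.Prime)
    (hτ : τ ^ p = 1) (hne : τ ≠ 1) {P : Ideal O} (hmax : P.IsMaximal) (hbot : P ≠ ⊥)
    (hδ : ∀ o, T τ o - o ∈ P) :
    ∃ l : ℕ, (∀ o, T τ o - o ∈ P ^ (l + 1)) ∧ (∃ π ∈ P, T τ π - π ∉ P ^ (l + 2)) ∧
      (p : O) ∈ P ^ ((p - 1) * l) ∧ (l = 0 → (p : O) ∉ P) := by
  classical
  let k' : Subalgebra k O := AlgHom.equalizer ((T τ : O ≃ₐ[k] O) : O →ₐ[k] O) (AlgHom.id k O)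
  have hk' : ∀ o : O, o ∈ k' ↔ T τ o = o := fun o => Iff.rfl
  have hKalg : ∀ c : k', algebraMap k' K c = algebraMap O K (c : O) := fun c => rfl
  have hOalg : ∀ c : k', algebraMap k' O c = (c : O) := fun c => rfl
  have : IsScalarTower k' O K := inferInstance
  let τ' : K ≃ₐ[k'] K := AlgEquiv.ofRingEquiv (f := (ρ τ : K ≃ₐ[k] K).toRingEquiv) (by
    intro c
    rw [hKalg]
    change ρ τ (algebraMap O K (c : O)) = _
    rw [h.com, (hk' _).1 c.2])
  let t' : O ≃ₐ[k'] O := AlgEquiv.ofRingEquiv (f := (T τ : O ≃ₐ[k] O).toRingEquiv) (by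
    intro c
    rw [hOalg]
    exact (hk' _).1 c.2)
  have hτ' : ∀ x, τ' x = ρ τ x := fun x => rfl
  have ht' : ∀ x, t' x = T τ x := fun x => rfl
  have hfin := h.fin
  have hG : GSet k' O K p τ' t' := by
    constructor
    · exact hp
    · intro h0
      have := Fact.mk hp
      apply h.cg
      have h1 : orderOf τ = p := orderOf_eq_prime hτ hne
      obtain ⟨c, hc⟩ := orderOf_dvd_natCard τ
      rw [hc, h1, Nat.cast_mul, h0, zero_mul]
    · exact Module.Finite.of_restrictScalars_finite k k' O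
    · exact h.inj
    · intro a b hab
      rw [hKalg, hKalg] at hab
      exact Subtype.ext (h.inj hab)
    · intro x
      have h1 : ∀ n : ℕ, τ'^[n] x = (ρ τ)^[n] x := by
        intro n
        induction n with
        | zero => rfl
        | succ n ih => rw [Function.iterate_succ_apply', Function.iterate_succ_apply', ih, hτ']
      rw [h1, rho_iter, hτ, map_one]
      rfl
    · intro o
      exact h.com τ o
    · by_contra hcon
      push Not at hcon
      exact hne (h.fai τ hcon)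
    · intro o ho
      exact ⟨⟨o, ho⟩, rfl⟩
    · exact h.resf
  exact hR k' O K p τ' t' hG P hmax hbot hδ

/-- The inertia group. -/
def Ine (T : G →* (O ≃ₐ[k] O)) (P : Ideal O) : Subgroup G where
  carrier := {g | ∀ o, T g o - o ∈ P}
  mul_mem' := by
    intro a b ha hb o
    rw [map_mul, AlgEquiv.mul_apply]
    have h1 : T a (T b o) - o = (T a (T b o) - T b o) + (T b o - o) := by ring
    rw [h1]
    exact P.add_mem (ha _) (hb _)
  one_mem' := by
    intro o
    rw [map_one, AlgEquiv.one_apply, sub_self]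
    exact P.zero_mem
  inv_mem' := by
    intro a ha o
    have h1 := ha (T a⁻¹ o)
    rw [← AlgEquiv.mul_apply, ← map_mul, mul_inv_cancel, map_one, AlgEquiv.one_apply] at h1
    have h2 : T a⁻¹ o - o = -(o - T a⁻¹ o) := by ring
    rw [h2]
    exact P.neg_mem h1

lemma mem_Ine {P : Ideal O} {g : G} : g ∈ Ine T P ↔ ∀ o, T g o - o ∈ P := Iff.rfl

/-- The image of an ideal. -/
def mv (T : G →* (O ≃ₐ[k] O)) (g : G) (P : Ideal O) : Ideal O :=
  P.map (T g).toRingEquiv

lemma T_inv (g : G) (x : O) : T g (T g⁻¹ x) = x := by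
  rw [← AlgEquiv.mul_apply, ← map_mul, mul_inv_cancel, map_one, AlgEquiv.one_apply]

lemma T_inv' (g : G) (x : O) : T g⁻¹ (T g x) = x := by
  rw [← AlgEquiv.mul_apply, ← map_mul, inv_mul_cancel, map_one, AlgEquiv.one_apply]

lemma mem_mv (g : G) (P : Ideal O) (x : O) : x ∈ mv T g P ↔ T g⁻¹ x ∈ P := by
  rw [mv, Ideal.mem_map_of_equiv]
  constructor
  · rintro ⟨y, hy, rfl⟩
    change T g⁻¹ (T g y) ∈ P
    rwa [T_inv']
  · intro hx
    exact ⟨_, hx, T_inv g x⟩

lemma mem_mv' (g : G) (P : Ideal O) (x : O) : T g x ∈ mv T g P ↔ x ∈ P := by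
  rw [mem_mv, T_inv']

lemma mv_pow (g : G) (P : Ideal O) (n : ℕ) : mv T g (P ^ n) = mv T g P ^ n :=
  Ideal.map_pow _ _ _

lemma mv_mv (g g' : G) (P : Ideal O) : mv T g (mv T g' P) = mv T (g * g') P := by
  ext x
  rw [mem_mv, mem_mv, mem_mv, mul_inv_rev, map_mul, AlgEquiv.mul_apply]

lemma mv_max (g : G) {P : Ideal O} (hP : P.IsMaximal) : (mv T g P).IsMaximal :=
  Ideal.map_isMaximal_of_equiv _

lemma mv_ne (g : G) {P : Ideal O} (hP : P ≠ ⊥) : mv T g P ≠ ⊥ := by
  obtain ⟨x, hx, hx0⟩ := Submodule.exists_mem_ne_zero_of_ne_bot hP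
  intro hb
  have h1 := (mem_mv' (T := T) g P x).2 hx
  rw [hb, Ideal.mem_bot] at h1
  exact hx0 ((map_eq_zero_iff _ (T g).injective).1 h1)

lemma mv_comap (g : G) (P : Ideal O) :
    (mv T g P).comap (algebraMap k O) = P.comap (algebraMap k O) := by
  ext x
  rw [Ideal.mem_comap, Ideal.mem_comap, mem_mv, AlgEquiv.commutes]

/-- Transport of the differences. -/
lemma conj_mv (g s : G) (P : Ideal O) (x : O) :
    T (g * s * g⁻¹) x - x ∈ mv T g P ↔ T s (T g⁻¹ x) - T g⁻¹ x ∈ P := by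
  rw [mem_mv, map_sub, map_mul, map_mul, AlgEquiv.mul_apply, AlgEquiv.mul_apply, T_inv']

lemma conj_mv' (g s : G) (P : Ideal O) :
    (∀ x, T (g * s * g⁻¹) x - x ∈ mv T g P) ↔ ∀ x, T s x - x ∈ P := by
  constructor
  · intro h x
    have h1 := (conj_mv g s P (T g x)).1 (h _)
    rwa [T_inv'] at h1
  · intro h x
    rw [conj_mv]
    exact h _

lemma Ine_mv (g s : G) (P : Ideal O) : g * s * g⁻¹ ∈ Ine T (mv T g P) ↔ s ∈ Ine T P := by
  rw [mem_Ine, mem_Ine, conj_mv']

lemma Ine_mv' (g s : G) (P : Ideal O) : s ∈ Ine T (mv T g P) ↔ g⁻¹ * s * g ∈ Ine T P := by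
  have h0 := Ine_mv (T := T) g (g⁻¹ * s * g) P
  have h1 : g * (g⁻¹ * s * g) * g⁻¹ = s := by group
  rwa [h1] at h0

/-- Groups of prime order. -/
lemma zp [Finite G] {p : ℕ} (hp : p.Prime) {τ x : G} (hτ : τ ^ p = 1)
    (hx : x ∈ Subgroup.zpowers τ) (hx1 : x ≠ 1) : τ ∈ Subgroup.zpowers x := by
  have := Fact.mk hp
  have hτ1 : τ ≠ 1 := by
    rintro rfl
    rw [Subgroup.zpowers_one_eq_bot, Subgroup.mem_bot] at hx
    exact hx1 hx
  have hxp : x ^ p = 1 := by
    obtain ⟨n, rfl⟩ := Subgroup.mem_zpowers_iff.1 hx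
    rw [← zpow_natCast, ← zpow_mul, mul_comm, zpow_mul, zpow_natCast, hτ, one_zpow]
  have e1 : orderOf τ = p := orderOf_eq_prime hτ hτ1
  have e2 : orderOf x = p := orderOf_eq_prime hxp hx1
  have hle : Subgroup.zpowers x ≤ Subgroup.zpowers τ := by
    rw [Subgroup.zpowers_le]
    exact hx
  have h3 : Subgroup.zpowers x = Subgroup.zpowers τ := by
    apply Subgroup.eq_of_le_of_card_ge hle
    rw [Nat.card_zpowers, Nat.card_zpowers, e1, e2]
  rw [h3]
  exact Subgroup.mem_zpowers τ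

/-- The group acts transitively on the primes over a given prime. -/
lemma trans [Finite G] (h : GB k O K G ρ T) {P Q : Ideal O} (hP : P.IsMaximal)
    (hQ : Q.IsMaximal) (e : P.comap (algebraMap k O) = Q.comap (algebraMap k O)) :
    ∃ g, Q = mv T g P := by
  classical
  have := Fintype.ofFinite G
  have hPp : P.IsPrime := hP.isPrime
  have h1 : (Q : Set O) ⊆ ⋃ g ∈ ((Finset.univ : Finset G) : Set G), (mv T g P : Set O) := by
    intro x hx
    have hN : ∀ g, T g (∏ a : G, T a x) = ∏ a : G, T a x := by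
      intro g
      rw [map_prod]
      refine Fintype.prod_equiv (Equiv.mulLeft g) _ _ fun a => ?_
      rw [Equiv.coe_mulLeft, map_mul, AlgEquiv.mul_apply]
    obtain ⟨c, hc⟩ := h.fix _ hN
    have h2 : c ∈ Q.comap (algebraMap k O) := by
      rw [Ideal.mem_comap, hc, ← Finset.mul_prod_erase Finset.univ _ (Finset.mem_univ (1 : G))]
      rw [map_one, AlgEquiv.one_apply]
      exact Q.mul_mem_right _ hx
    rw [← e, Ideal.mem_comap, hc] at h2
    obtain ⟨a, _, ha⟩ := (Ideal.IsPrime.prod_mem_iff).1 h2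
    refine Set.mem_iUnion₂.2 ⟨a⁻¹, Finset.mem_coe.2 (Finset.mem_univ _), ?_⟩
    rw [SetLike.mem_coe, mem_mv, inv_inv]
    exact ha
  have h2 := (Ideal.subset_union_prime (s := (Finset.univ : Finset G))
    (f := fun g => mv T g P) 1 1 (fun i _ _ _ => (mv_max i hP).isPrime)).1 h1
  obtain ⟨g, _, hg⟩ := h2
  exact ⟨g, hQ.eq_of_le (mv_max g hP).ne_top hg⟩

/-- The orbit of a prime. -/
def Orb (T : G →* (O ≃ₐ[k] O)) (P : Ideal O) : Type := {Q : Ideal O // ∃ g, Q = mv T g P}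

instance [Finite G] (P : Ideal O) : Finite (Orb T P) :=
  Finite.of_surjective (fun g : G => (⟨mv T g P, g, rfl⟩ : Orb T P)) (by
    rintro ⟨Q, g, rfl⟩
    exact ⟨g, rfl⟩)

/-- **The data at the primes of an orbit.** -/
theorem dataO [Finite G] (hR : S_RAM1) (h : GB k O K G ρ T) {P : Ideal O} (hP : P.IsMaximal)
    (hP0 : P ≠ ⊥) {g₁ : G} (hg₁ : g₁ ≠ 1) (hg₁P : ∀ o, T g₁ o - o ∈ P) :
    ∃ (p l : Orb T P → ℕ) (τ : Orb T P → G),
      PreD T (fun i : Orb T P => i.1) p l τ := by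
  classical
  have hmx : ∀ i : Orb T P, i.1.IsMaximal := by
    rintro ⟨Q, g, rfl⟩
    exact mv_max g hP
  have hne : ∀ i : Orb T P, i.1 ≠ ⊥ := by
    rintro ⟨Q, g, rfl⟩
    exact mv_ne g hP0
  have hcj0 : ∀ (g : G) (i : Orb T P), ∃ j : Orb T P, j.1 = mv T g i.1 := by
    rintro g ⟨Q, g', rfl⟩
    exact ⟨⟨mv T g (mv T g' P), g * g', mv_mv g g' P⟩, rfl⟩
  rcases h.inr P hP hP0 with htame | ⟨p, τ₀, hp, hτ₀, hz⟩
  · refine ⟨fun _ => 1, fun _ => 0, fun _ => 1, ?_⟩
    constructor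
    · exact hmx
    · exact hne
    · exact fun i j e => Subtype.ext e
    · rintro ⟨Q, g, rfl⟩
      refine Or.inl ⟨rfl, fun s hs hs2 => ?_⟩
      have h1 : g⁻¹ * s * g = 1 := by
        have e1 : g * (g⁻¹ * s * g) * g⁻¹ = s := by group
        apply htame
        · have h2 := (conj_mv' (T := T) g (g⁻¹ * s * g) P).1
          rw [e1] at h2
          exact h2 hs
        · intro x hx
          have h2 := (conj_mv (T := T) g (g⁻¹ * s * g) (P ^ 2) (T g x)).1
          rw [e1, mv_pow, T_inv'] at h2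
          exact h2 (hs2 _ ((mem_mv' g P x).2 hx))
      have h3 : s = g * (g⁻¹ * s * g) * g⁻¹ := by group
      rw [h3, h1]
      group
    · intro g i
      obtain ⟨j, hj⟩ := hcj0 g i
      refine ⟨j, fun o => ?_, rfl, rfl, Or.inl rfl⟩
      change o ∈ i.1 ↔ T g o ∈ j.1
      rw [hj, mem_mv']
  · -- the wild case
    have hg₁z : g₁ ∈ Subgroup.zpowers τ₀ := hz g₁ hg₁P
    have hτz : τ₀ ∈ Subgroup.zpowers g₁ := zp hp hτ₀ hg₁z hg₁
    have hτI : τ₀ ∈ Ine T P := by
      have h1 : Subgroup.zpowers g₁ ≤ Ine T P := by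
        rw [Subgroup.zpowers_le]
        exact hg₁P
      exact h1 hτz
    have hτ1 : τ₀ ≠ 1 := by
      rintro rfl
      rw [Subgroup.zpowers_one_eq_bot, Subgroup.mem_bot] at hg₁z
      exact hg₁ hg₁z
    obtain ⟨l, hl1, ⟨π, hπ, hl2⟩, hl3, hl4⟩ := ram1G hR h hp hτ₀ hτ1 hP hP0 hτI
    have hch : ∀ i : Orb T P, ∃ g, i.1 = mv T g P := fun i => i.2
    choose γ hγ using hch
    have hord : ∀ a : G, (a * τ₀ * a⁻¹) ^ p = 1 := by
      intro a
      rw [conj_pow, hτ₀]
      group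
    have hne1 : ∀ a : G, a * τ₀ * a⁻¹ ≠ 1 := by
      intro a ha
      apply hτ1
      have h1 : τ₀ = a⁻¹ * (a * τ₀ * a⁻¹) * a := by group
      rw [h1, ha]
      group
    have hgen : ∀ i : Orb T P, ∀ s ∈ Ine T i.1, s ∈ Subgroup.zpowers (γ i * τ₀ * (γ i)⁻¹) := by
      intro i s hs
      rw [hγ i, Ine_mv'] at hs
      obtain ⟨n, hn⟩ := Subgroup.mem_zpowers_iff.1 (hz _ hs)
      refine Subgroup.mem_zpowers_iff.2 ⟨n, ?_⟩
      rw [conj_zpow, hn]
      group
    refine ⟨fun _ => p, fun _ => l, fun i => γ i * τ₀ * (γ i)⁻¹, ?_⟩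
    constructor
    · exact hmx
    · exact hne
    · exact fun i j e => Subtype.ext e
    · intro i
      refine Or.inr ⟨hp, ?_, ?_, ?_, ?_, hord _, fun g hg => hgen i g hg⟩
      · intro o
        change _ ∈ i.1 ^ (l + 1)
        rw [hγ i, ← mv_pow, conj_mv]
        exact hl1 _
      · refine ⟨T (γ i) π, ?_, ?_⟩
        · change _ ∈ i.1
          rw [hγ i, mem_mv']
          exact hπ
        · change _ ∉ i.1 ^ (l + 2)
          rw [hγ i, ← mv_pow, conj_mv, T_inv']
          exact hl2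
      · change _ ∈ i.1 ^ ((p - 1) * l)
        rw [hγ i, ← mv_pow, mem_mv, map_natCast]
        exact hl3
      · intro hl
        change _ ∉ i.1
        rw [hγ i, mem_mv, map_natCast]
        exact hl4 hl
    · intro g i
      obtain ⟨j, hj⟩ := hcj0 g i
      refine ⟨j, fun o => ?_, rfl, rfl, Or.inr ?_⟩
      · change o ∈ i.1 ↔ T g o ∈ j.1
        rw [hj, mem_mv']
      · have h1 : γ i * τ₀ * (γ i)⁻¹ ∈ Ine T i.1 := by
          rw [hγ i, Ine_mv]
          exact hτI
        have h2 : g * (γ i * τ₀ * (γ i)⁻¹) * g⁻¹ ∈ Ine T j.1 := by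
          rw [hj, Ine_mv]
          exact h1
        have h3 := hgen j _ h2
        have h4 : g * (γ i * τ₀ * (γ i)⁻¹) * g⁻¹ ≠ 1 := by
          have e : g * (γ i * τ₀ * (γ i)⁻¹) * g⁻¹ = (g * γ i) * τ₀ * (g * γ i)⁻¹ := by group
          rw [e]
          exact hne1 _
        have h5 := zp hp (hord (γ j)) h3 h4
        rw [← mem_powers_iff_mem_zpowers] at h3 h5
        obtain ⟨n, hn⟩ := h3
        obtain ⟨m, hm⟩ := h5
        exact ⟨⟨n, hn.symm⟩, ⟨m, hm.symm⟩⟩

end

end Pool.Agent.Y290.G
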